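import Pool.Agent.helper62.RP.Spec

/-! # Row rp:TRN: transfer by a map injective on the support -/

set_option autoImplicit false

open Polynomial Filter
open Pool.Agent.QU

namespace Pool.Agent.RP

theorem TRN (h1 : RNB_stmt) (h2 : ADJ_stmt) (h3 : PUS_stmt) (h4 : PWR_stmt) (h5 : HAA_stmt) :
    TRN_stmt := by
  intro G _ ψ a j ℓ hinj hlen
  obtain ⟨b, hb⟩ : ∃ b : MonoidAlgebra ℂ G, b = (adj a * a) ^ (2 ^ j) := ⟨_, rfl⟩
  rw [← hb] at hinj hlen
  have hpush : push ψ b = (adj (push ψ a) * push ψ a) ^ (2 ^ j) := by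
    rw [hb, (h3 G F2 ψ (adj a * a) a).2.2.1 (2 ^ j), (h3 G F2 ψ (adj a) a).1,
      (h3 G F2 ψ a a).2.2.2.1]
  have hP := h4 F2 (push ψ a) j
  rw [← hpush] at hP
  have hH := h5 (push ψ b) ℓ (fun s hs => by
    obtain ⟨γ, hγ, rfl⟩ := (h3 G F2 ψ b b).2.2.2.2.1 s hs
    exact hlen γ hγ)
  rw [(h3 G F2 ψ b b).2.2.2.2.2.1 hinj] at hH
  have hR := h1 G b b
  have hl2 : l2 b ≤ regNorm b := hR.2.2.2.2.1
  have hRa := h1 G a a
  have hR1 := h1 G (adj a * a) a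
  have hR2 := h1 G (adj a) a
  have hle : regNorm b ≤ regNorm a ^ (2 ^ (j + 1)) := by
    rw [hb]
    refine (hR1.2.2.2.2.2.2.2.1 (2 ^ j)).trans ?_
    have h6 : regNorm (adj a * a) ≤ regNorm a ^ 2 := by
      refine hR2.2.2.2.2.2.2.1.trans ?_
      rw [(h2 G a a).2.2.2.1, sq]
    calc regNorm (adj a * a) ^ (2 ^ j) ≤ (regNorm a ^ 2) ^ (2 ^ j) :=
          pow_le_pow_left₀ hR1.1 h6 _
      _ = regNorm a ^ (2 ^ (j + 1)) := by
          rw [← pow_mul]
          congr 1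
          rw [pow_succ]
          ring
  refine hP.trans (hH.trans ?_)
  exact mul_le_mul_of_nonneg_left (hl2.trans hle) (by positivity)

end Pool.Agent.RP
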